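import Mathlib

/-!
# Height and transcendence degree of primes of polynomial rings over fields
-/

set_option autoImplicit false

namespace Pool.Agent.Helper40.CY

open Polynomial

universe u

/-- A prime of `R[X]` which is extended from `R`. -/
theorem trdeg_map_C {K R : Type u} [Field K] [CommRing R] [Algebra K R] (p : Ideal R) [p.IsPrime] :
    Algebra.trdeg K (R ⧸ p) + 1 = Algebra.trdeg K (R[X] ⧸ p.map (C : R →+* R[X])) := by
  have h1 := _root_.trdeg_add_eq K (R ⧸ p) (A := (R ⧸ p)[X])
  rw [Polynomial.trdeg_of_isDomain] at h1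
  rw [h1]
  refine AlgEquiv.trdeg_eq (AlgEquiv.ofRingEquiv (f := p.polynomialQuotientEquivQuotientPolynomial)
    fun x => ?_)
  have e : algebraMap K (R ⧸ p)[X] x =
      (C (algebraMap K R x) : R[X]).map (Ideal.Quotient.mk p) := by
    rw [Polynomial.map_C]
    rfl
  rw [e, Ideal.polynomialQuotientEquivQuotientPolynomial_map_mk]
  rfl

theorem trdeg_comap_le {K R : Type u} [Field K] [CommRing R] [Algebra K R] (Q : Ideal R[X])
    [Q.IsPrime] : Algebra.trdeg K (R ⧸ Q.comap (C : R →+* R[X])) ≤ Algebra.trdeg K (R[X] ⧸ Q) := by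
  have hle : Q.comap (C : R →+* R[X]) ≤ Q.comap (Algebra.ofId R R[X] : R →ₐ[R] R[X]) := le_rfl
  set f : R ⧸ Q.comap (C : R →+* R[X]) →ₐ[K] R[X] ⧸ Q :=
    Ideal.quotientMapₐ Q ((Algebra.ofId R R[X]).restrictScalars K) le_rfl with hf
  refine trdeg_le_of_injective f ?_
  exact Ideal.quotientMap_injective

theorem step {K R : Type u} [Field K] [CommRing R] [Algebra K R] [IsNoetherianRing R]
    (n : ℕ) (ih : ∀ (p : Ideal R) [p.IsPrime] (r : ℕ), p.height ≤ r →
      (n : Cardinal.{u}) ≤ r + Algebra.trdeg K (R ⧸ p))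
    (Q : Ideal R[X]) [Q.IsPrime] (r : ℕ) (h : Q.height ≤ r) :
    ((n + 1 : ℕ) : Cardinal.{u}) ≤ r + Algebra.trdeg K (R[X] ⧸ Q) := by
  set p : Ideal R := Q.comap (C : R →+* R[X]) with hp
  have hpp : p.IsPrime := Ideal.IsPrime.comap _
  have hlies : Q.LiesOver p := ⟨rfl⟩
  have hh := Ideal.height_eq_height_add_of_liesOver_of_hasGoingDown p Q
  have hle : p.map (C : R →+* R[X]) ≤ Q := Ideal.map_comap_le
  by_cases hQ : Q = p.map (C : R →+* R[X])
  · have h1 : p.height ≤ r := by
      refine le_trans ?_ h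
      rw [hh]
      exact le_self_add
    have h2 := ih p r h1
    rw [hQ, ← trdeg_map_C]
    push_cast
    rw [← add_assoc]
    gcongr
  · have hne : Q.map (Ideal.Quotient.mk (p.map (algebraMap R R[X]))) ≠ ⊥ := by
      intro h0
      apply hQ
      refine le_antisymm ?_ hle
      intro x hx
      have h3 := Ideal.mem_map_of_mem (Ideal.Quotient.mk (p.map (algebraMap R R[X]))) hx
      rw [h0, Ideal.mem_bot, Ideal.Quotient.eq_zero_iff_mem] at h3
      exact h3
    have hdom : IsDomain (R[X] ⧸ p.map (algebraMap R R[X])) :=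
      Ideal.isDomain_map_C_quotient hpp
    have h4 : 1 ≤ (Q.map (Ideal.Quotient.mk (p.map (algebraMap R R[X])))).height := by
      rw [Order.one_le_iff_ne_zero]
      intro h0
      exact hne (Ideal.height_eq_zero_iff_eq_bot.1 h0)
    have h5 : p.height + 1 ≤ r := by
      refine le_trans ?_ h
      rw [hh]
      gcongr
    obtain ⟨r', rfl⟩ : ∃ r', r = r' + 1 := by
      rcases r with _ | r'
      · exfalso
        have := le_trans le_add_self h5
        simp at this
      · exact ⟨r', rfl⟩
    have h6 : p.height ≤ r' := by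
      have : p.height + 1 ≤ (r' : ℕ∞) + 1 := by exact_mod_cast h5
      exact (ENat.add_le_add_iff_right ENat.one_ne_top).1 this
    have h7 := ih p r' h6
    have h8 := trdeg_comap_le (K := K) Q
    push_cast
    calc (n : Cardinal.{u}) + 1 ≤ (r' + Algebra.trdeg K (R ⧸ p)) + 1 := by gcongr
      _ ≤ (r' + Algebra.trdeg K (R[X] ⧸ Q)) + 1 := by gcongr
      _ = r' + 1 + Algebra.trdeg K (R[X] ⧸ Q) := by ring

/-- CY-12a. -/
theorem card_le_height_add_trdeg {K : Type*} [Field K] {n : ℕ}
    (P : Ideal (MvPolynomial (Fin n) K)) [P.IsPrime] (r : ℕ) (h : P.height ≤ r) :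
    (n : Cardinal) ≤ r + Algebra.trdeg K (MvPolynomial (Fin n) K ⧸ P) := by
  induction n generalizing r with
  | zero => simp
  | succ n ih =>
    set e := MvPolynomial.finSuccEquiv K n with he
    set Q : Ideal (MvPolynomial (Fin n) K)[X] := P.map e.toRingEquiv with hQ
    have hQp : Q.IsPrime := Ideal.map_isPrime_of_equiv e.toRingEquiv
    have hh : Q.height ≤ r := by
      rw [hQ, RingEquiv.height_map]
      exact h
    have key := step (K := K) n (fun p _ r hr => ih p r hr) Q r hh
    have e2 : Algebra.trdeg K (MvPolynomial (Fin (n + 1)) K ⧸ P) =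
        Algebra.trdeg K ((MvPolynomial (Fin n) K)[X] ⧸ Q) :=
      AlgEquiv.trdeg_eq (Ideal.quotientEquivAlg P Q e rfl)
    rw [e2]
    exact key

end Pool.Agent.Helper40.CY
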